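import Pool.Agent.R241.MKV.M5

/-!
# MP_5d65a3_an: mirror-symmetric dimension spectra of conformal iterated function systems

There is an infinite CIFS on `ℝ` whose dimension spectrum is `[0,1/8] ∪ [1/4,3/8]`.
-/

namespace Pool.Agent.Results.MP_5d65a3_an.MirrorSpectrum

open Set Pool.Agent.R241.MKV

/-- The mirror image `sup K - K`. -/
noncomputable def mirror (K : Set ℝ) : Set ℝ := (fun x => sSup K - x) '' K

/-- `K` is the dimension spectrum of an infinite conformal iterated function system on `ℝ`. -/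
def IsSpectrum (K : Set ℝ) : Prop :=
  ∃ (E : Type) (X V : Set ℝ) (u : E → ℝ → ℝ), IsCIFS X V u ∧ Infinite E ∧ DS X u = K

/-- The spectrum. -/
def K0 : Set ℝ := Icc 0 (1 / 8) ∪ Icc (1 / 4) (3 / 8)

theorem sSup_K0 : sSup K0 = 3 / 8 := by
  apply IsGreatest.csSup_eq
  constructor
  · right
    norm_num
  · rintro x (hx | hx)
    · linarith [hx.2]
    · exact hx.2

theorem mirror_K0 : mirror K0 = K0 := by
  unfold mirror
  rw [sSup_K0, K0, image_union]
  have h1 : (fun x : ℝ => 3 / 8 - x) '' Icc 0 (1 / 8) = Icc (1 / 4) (3 / 8) := by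
    rw [Set.image_const_sub_Icc]
    norm_num
  have h2 : (fun x : ℝ => 3 / 8 - x) '' Icc (1 / 4) (3 / 8) = Icc 0 (1 / 8) := by
    rw [Set.image_const_sub_Icc]
    norm_num
  rw [h1, h2, union_comm]

/-- **MP_5d65a3_an (Q1, disproved).**  The set `K0 = [0,1/8] ∪ [1/4,3/8]` is the dimension spectrum
of an infinite conformal iterated function system on `ℝ`, and so is its mirror image
`sup K0 - K0 = K0`, but `K0` is not of the form `[0, l]`. -/
theorem result : IsSpectrum K0 ∧ IsSpectrum (mirror K0) ∧ ¬ ∃ l : ℝ, K0 = Icc 0 l := by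
  have h1 : IsSpectrum K0 := by
    refine ⟨EE, Icc 0 1, VV, uu, isCIFS, ?_, spectrum⟩
    exact Sum.infinite_of_right
  refine ⟨h1, by rw [mirror_K0]; exact h1, ?_⟩
  rintro ⟨l, hl⟩
  have h2 : (3 / 8 : ℝ) ∈ K0 := Or.inr (by norm_num)
  rw [hl] at h2
  have h3 : (3 / 16 : ℝ) ∈ K0 := by
    rw [hl]
    exact ⟨by norm_num, by linarith [h2.2]⟩
  rcases h3 with h3 | h3
  · have := h3.2
    norm_num at this
  · have := h3.1
    norm_num at this

end Pool.Agent.Results.MP_5d65a3_an.MirrorSpectrum
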